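import Pool.Agent.Run7.h35.EX.Stm

/-!
Project EX (helper35), piece SING (helper416).
-/

set_option autoImplicit false
open scoped BigOperators

namespace Run7.h416.EX

open Run7.h35.EX

lemma av_mono {T : Type} [Fintype T] {f g : T → ℝ} (h : ∀ t, f t ≤ g t) : av f ≤ av g := by
  unfold av
  exact div_le_div_of_nonneg_right (Finset.sum_le_sum fun t _ => h t) (Nat.cast_nonneg _)

lemma av_add' {T : Type} [Fintype T] (f g : T → ℝ) :
    av (fun t => f t + g t) = av f + av g := by
  unfold av
  rw [Finset.sum_add_distrib, add_div]

lemma av_mul' {T : Type} [Fintype T] (c : ℝ) (f : T → ℝ) :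
    av (fun t => c * f t) = c * av f := by
  unfold av
  rw [← Finset.mul_sum, mul_div_assoc]

lemma av_const' {T : Type} [Fintype T] [Nonempty T] (c : ℝ) : av (fun _ : T => c) = c := by
  unfold av
  have : (Fintype.card T : ℝ) ≠ 0 := by
    exact_mod_cast Fintype.card_ne_zero
  rw [Finset.sum_const, Finset.card_univ, nsmul_eq_mul]
  field_simp

lemma av_abs {T : Type} [Fintype T] (f : T → ℝ) : |av f| ≤ av fun t => |f t| := by
  unfold av
  rw [abs_div, Nat.abs_cast]
  exact div_le_div_of_nonneg_right (Finset.abs_sum_le_sum_abs _ _) (Nat.cast_nonneg _)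

theorem t_SING : S_SING := by
  intro V ι _ _ _ _ s κ t a hκ
  refine ⟨fun x => - av fun j => breg t a x j, ?_⟩
  -- the averaged identity
  have hid : ∀ x i, a x i - d0 s (fun x => - av fun j => breg t a x j) x i =
      av fun j => UU s t a x i j := by
    intro x i
    have e1 : (fun j => UU s t a x i j) =
        fun j => (a x i + (-1) * breg t a x j) + breg t a (x + s i) j := by
      funext j; unfold UU; ring
    rw [e1, av_add', av_add', av_const', av_mul']
    unfold d0
    ring
  have hUW : ∀ x i j, UU s t a x i j = WW s t a x i j + d1 s a x i j := by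
    intro x i j
    unfold UU WW d1 csing
    ring
  have hpt : ∀ x i j, |UU s t a x i j| ≤
      2 * (Real.sqrt |UU s t a x i j| * Real.sqrt |WW s t a x i j|) + |d1 s a x i j| := by
    intro x i j
    have h1 : |UU s t a x i j| ≤ |WW s t a x i j| + |d1 s a x i j| := by
      rw [hUW]; exact abs_add_le _ _
    have hp := Real.sq_sqrt (abs_nonneg (UU s t a x i j))
    have hw := Real.sq_sqrt (abs_nonneg (WW s t a x i j))
    have hp0 := Real.sqrt_nonneg |UU s t a x i j|
    have hw0 := Real.sqrt_nonneg |WW s t a x i j|
    have hd0 := abs_nonneg (d1 s a x i j)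
    rcases le_total (Real.sqrt |UU s t a x i j|) (Real.sqrt |WW s t a x i j|) with h | h
    · nlinarith [mul_le_mul_of_nonneg_left h hp0, mul_nonneg hp0 hw0]
    · nlinarith [mul_le_mul_of_nonneg_left h hw0, mul_nonneg hp0 hw0]
  have hE : (av fun x => av fun i => av fun j => |UU s t a x i j|) ≤ 2 * κ + nrm2 s a := by
    calc (av fun x => av fun i => av fun j => |UU s t a x i j|)
        ≤ av fun x => av fun i => av fun j =>
          (2 * (Real.sqrt |UU s t a x i j| * Real.sqrt |WW s t a x i j|) + |d1 s a x i j|) :=
          av_mono fun x => av_mono fun i => av_mono fun j => hpt x i j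
      _ = 2 * (av fun x => av fun i => av fun j =>
          Real.sqrt |UU s t a x i j| * Real.sqrt |WW s t a x i j|) + nrm2 s a := by
          simp only [av_add', av_mul']
          rfl
      _ ≤ 2 * κ + nrm2 s a := by linarith
  calc nrm1 (fun x i => a x i - d0 s (fun x => - av fun j => breg t a x j) x i)
      = av fun x => av fun i => |av fun j => UU s t a x i j| := by
        unfold nrm1
        simp only [hid]
    _ ≤ av fun x => av fun i => av fun j => |UU s t a x i j| :=
        av_mono fun x => av_mono fun i => av_abs _
    _ ≤ 2 * κ + nrm2 s a := hE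
    _ = nrm2 s a + 2 * κ := by ring

end Run7.h416.EX
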